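import Pool.Agent.helper55.VQ.SpecD

/-!
# MP_07c750, project VQ, row EDC: the commutator of the small step with a slowly varying function
-/

set_option autoImplicit false

open scoped MatrixGroups ContDiff Topology UpperHalfPlane ComplexConjugate ENNReal
open UpperHalfPlane MeasureTheory Filter Set

namespace Pool.Agent.VQ

open Pool.Agent.RS
open Pool.Agent.RPQ (CEig mean VV IsOp)

noncomputable section

/-- functions of `FP` are square integrable on the window -/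
theorem EDC_fin {Γ : Subgroup SL(2, ℝ)} {F : Set ℍ} (hF : MeasurableSet F) (R : ℝ)
    {v : SL(2, ℝ) × ℝ → ℂ} (hv : FP Γ F v) : ∫⁻ p in PW F 2 R, ‖v p‖ₑ ^ 2 ∂mP ≠ ⊤ := by
  obtain ⟨b, hb⟩ := hv.bdd
  obtain ⟨b', hb'⟩ := hv.supp
  have hPW : MeasurableSet (PW F 2 R) := (RS.A_GMG.1 F hF).1.prod measurableSet_Icc
  set S : Set (SL(2, ℝ) × ℝ) := dG (Metric.closedBall I b') ×ˢ Wi 2 R with hS
  have hSf : mP S ≠ ⊤ := by
    rw [hS, mP, Measure.prod_prod, (RS.A_GMG.1 _ Metric.isClosed_closedBall.measurableSet).2]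
    refine ENNReal.mul_ne_top (isCompact_closedBall _ _).measure_lt_top.ne ?_
    rw [Wi, Real.volume_Icc]
    exact ENNReal.ofReal_ne_top
  have h1 : IntegrableOn (fun p => ‖v p‖ ^ 2) S mP := by
    refine Measure.integrableOn_of_bounded (M := b ^ 2) hSf (hv.meas.norm.pow_const 2).aestronglyMeasurable
      (Eventually.of_forall fun p => ?_)
    rw [Real.norm_of_nonneg (by positivity)]
    have := hb p
    have h0 := norm_nonneg (v p)
    gcongr
  have h4 : IntegrableOn (fun p => ‖v p‖ ^ 2) (PW F 2 R) mP := by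
    refine h1.of_forall_sdiff_eq_zero hPW fun p hp => ?_
    by_contra h0
    apply hp.2
    have h2 : v p ≠ 0 := by
      intro h3
      apply h0
      rw [h3]
      simp
    exact ⟨hb' p hp.1.1 h2, hp.1.2⟩
  have h := h4.2
  rw [HasFiniteIntegral] at h
  have h1 : ∀ p, ‖‖v p‖ ^ 2‖ₑ = ‖v p‖ₑ ^ 2 := fun p => by
    rw [enorm_pow, enorm_norm]
  simp only [h1] at h
  exact h.ne

/-- the norm is at most the lower integral -/
theorem EDC_nP_le {F : Set ℍ} {R : ℝ} (v : SL(2, ℝ) × ℝ → ℂ) :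
    nP F 2 R v ≤ (∫⁻ p in PW F 2 R, ‖v p‖ₑ ^ 2 ∂mP).toReal := by
  have h := norm_integral_le_lintegral_norm (μ := mP.restrict (PW F 2 R)) (fun p => ‖v p‖ ^ 2)
  have h1 : ∀ p, ENNReal.ofReal ‖‖v p‖ ^ 2‖ = ‖v p‖ₑ ^ 2 := fun p => by
    rw [ofReal_norm, enorm_pow, enorm_norm]
  simp only [h1] at h
  exact (le_abs_self _).trans h

/-- the norm as a lower integral -/
theorem EDC_nP {F : Set ℍ} {R : ℝ} {v : SL(2, ℝ) × ℝ → ℂ} (hv : Measurable v) :
    nP F 2 R v = (∫⁻ p in PW F 2 R, ‖v p‖ₑ ^ 2 ∂mP).toReal := by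
  rw [nP, integral_eq_lintegral_of_nonneg_ae (Eventually.of_forall fun p => by positivity)
    (hv.norm.pow_const 2).aestronglyMeasurable]
  congr 1
  have h1 : ∀ p, ENNReal.ofReal (‖v p‖ ^ 2) = ‖v p‖ₑ ^ 2 := fun p => by
    rw [ENNReal.ofReal_pow (norm_nonneg _), ofReal_norm]
  simp only [h1]

/-- the action on phase space -/
@[reducible] def EDC_act (Γ : Subgroup SL(2, ℝ)) : MulAction Γ (SL(2, ℝ) × ℝ) where
  smul γ p := ((γ : SL(2, ℝ)) * p.1, p.2)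
  one_smul p := by
    show (((1 : Γ) : SL(2, ℝ)) * p.1, p.2) = p
    rw [Subgroup.coe_one, one_mul]
  mul_smul a b p := by
    show (((a * b : Γ) : SL(2, ℝ)) * p.1, p.2) = ((a : SL(2, ℝ)) * ((b : SL(2, ℝ)) * p.1), p.2)
    rw [Subgroup.coe_mul, mul_assoc]

theorem EDC_GWm (R : ℝ) : MeasurableSet (GW 2 R) := MeasurableSet.univ.prod measurableSet_Icc

/-- the kernel only sees neighbours -/
theorem EDC_us {D : Dyn} {ch : ℝ → ℝ} {A : Prm} {R : ℝ} {p q : SL(2, ℝ) × ℝ} (h : us D ch A R p q ≠ 0) :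
    p ∈ GW 2 R ∧ q ∈ GW 2 R ∧ Nb (A.r R) (D.ph (A.sg R) p) q := by
  unfold us at h
  split_ifs at h with h1
  · exact ⟨⟨mem_univ _, h1.1⟩, ⟨mem_univ _, h1.2.1⟩, h1.2.2⟩
  · exact absurd rfl h

/-- integrability of the kernel against a bounded function -/
theorem EDC_int {K v : SL(2, ℝ) × ℝ → ℂ} {R b c T : ℝ} {z : ℍ} (hK : Measurable K) (hv : Measurable v)
    (hb : ∀ p, ‖K p‖ ≤ b) (hc : ∀ p, ‖v p‖ ≤ c) (hs : ∀ p, K p ≠ 0 → p ∈ GW 2 R ∧ dist z (p.1 • I) ≤ T) :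
    Integrable (fun q => K q * v q) mP := by
  have : SigmaFinite mG := RS.A_GMG.2.2.1
  have : SigmaFinite mP := by unfold mP; infer_instance
  set S : Set (SL(2, ℝ) × ℝ) := dG (Metric.closedBall z T) ×ˢ Wi 2 R with hS
  have hSf : mP S ≠ ⊤ := by
    rw [hS, mP, Measure.prod_prod, (RS.A_GMG.1 _ Metric.isClosed_closedBall.measurableSet).2]
    refine ENNReal.mul_ne_top (isCompact_closedBall _ _).measure_lt_top.ne ?_
    rw [Wi, Real.volume_Icc]
    exact ENNReal.ofReal_ne_top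
  rw [← integrableOn_iff_integrable_of_support_subset (s := S)]
  · refine Measure.integrableOn_of_bounded (M := b * c) hSf (hK.mul hv).aestronglyMeasurable
      (Eventually.of_forall fun x => ?_)
    rw [norm_mul]
    have a1 := hb x
    have a2 := hc x
    have a3 := norm_nonneg (K x)
    gcongr
    exact a3.trans a1
  · intro x hx
    have h1 : K x * v x ≠ 0 := hx
    have h2 : K x ≠ 0 := fun h0 => h1 (by rw [h0, zero_mul])
    obtain ⟨a1, a2⟩ := hs _ h2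
    refine ⟨?_, a1.2⟩
    show (x.1 • I : ℍ) ∈ Metric.closedBall z T
    rw [Metric.mem_closedBall, dist_comm]
    exact a2

theorem EDC_proof (hVUS : VUS_stmt) (hVUM : VUM_stmt) (hVSH : VSH_stmt) (hVDM : VDM_stmt) : EDC_stmt := by
  obtain ⟨C1, hC1, HS⟩ := hVUS
  obtain ⟨C2, hC2, HM⟩ := hVUM
  refine ⟨max (200 * C1) C2, hC2.trans (le_max_right _ _), fun ch B A hch hA => ?_⟩
  have hA1 : Adm C1 A := Adm_mono hA hC1 ((by linarith : C1 ≤ 200 * C1).trans (le_max_left _ _))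
  have hA2 : Adm C2 A := Adm_mono hA hC2 (le_max_right _ _)
  obtain ⟨R1, hR1, HS⟩ := HS ch B A hch hA1
  obtain ⟨R2, hR2, HM⟩ := HM ch B A hch hA2
  refine ⟨max R1 R2, hR1.trans (le_max_left _ _), ?_⟩
  intro R δ w Γ F D H v hR hD hok hδ hw hH hv
  obtain ⟨hs1, hs2, -, -⟩ := HS R δ Γ D ((le_max_left _ _).trans hR) hok hδ
  obtain ⟨hKZ, -, -, -, -, -, -⟩ := HM R δ Γ F D ((le_max_right _ _).trans hR) hD hok hδ
  have hR1' : (1 : ℝ) ≤ R := hR1.trans ((le_max_left _ _).trans hR)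
  have hsm := Adm_small hA (hC2.trans (le_max_right _ _))
  have hz2 : 0 < A.z2 := hsm.1.trans_le (hsm.2.1.trans hsm.2.2.1)
  have hCz : 200 * C1 * A.z2 ≤ 1 := (mul_le_mul_of_nonneg_right (le_max_left _ _) hz2.le).trans hsm.2.2.2.2.1
  obtain ⟨hcG, hF, huni, -, hWW⟩ := hVDM Γ F hD
  obtain ⟨hsf, hmp, -, hres, hdG, -⟩ := hWW (Wi 2 R) measurableSet_Icc
  set W : Measure (SL(2, ℝ) × ℝ) := mP.restrict (GW 2 R) with hWd
  have hsf' : SigmaFinite W := hsf
  have hPWm : MeasurableSet (PW F 2 R) := hdG.prod measurableSet_Icc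
  have hPG : PW F 2 R ⊆ GW 2 R := fun p hp => ⟨mem_univ _, hp.2⟩
  have hresW : W.restrict (dG F ×ˢ univ) = mP.restrict (PW F 2 R) := hres
  set a : ℝ≥0∞ := ENNReal.ofReal (R ^ (C1 * A.z2)) with ha
  -- the Schur test
  have hWle : W ≤ mP := Measure.restrict_le_self
  have hK1 : ∀ x, ∫⁻ y, ‖us D ch A R x y‖ₑ ∂W ≤ a := fun x => (lintegral_mono' hWle le_rfl).trans (hs1 x)
  have hK2 : ∀ y, ∫⁻ x, ‖us D ch A R x y‖ₑ ∂W ≤ a := fun y => (lintegral_mono' hWle le_rfl).trans (hs2 y)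
  have hact : ∀ x : SL(2, ℝ) × ℝ, ∃! γ : Γ, (((γ : SL(2, ℝ)) * x.1, x.2) : SL(2, ℝ) × ℝ) ∈ (dG F ×ˢ univ : Set (SL(2, ℝ) × ℝ)) := by
    intro x
    obtain ⟨γ, h1, h2⟩ := huni (x.1 • I)
    refine ⟨γ, ⟨?_, mem_univ _⟩, fun γ' h' => h2 γ' ?_⟩
    · show (((γ : SL(2, ℝ)) * x.1) • I : ℍ) ∈ F
      rw [mul_smul]
      exact h1
    · have h3 : (((γ' : SL(2, ℝ)) * x.1) • I : ℍ) ∈ F := h'.1
      rw [mul_smul] at h3
      exact h3
  have hSch : ∫⁻ x in PW F 2 R, (∫⁻ y, ‖us D ch A R x y‖ₑ * ‖v y‖ₑ ∂W) ^ 2 ∂mP ≤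
      a * a * ∫⁻ y in PW F 2 R, ‖v y‖ₑ ^ 2 ∂mP := by
    rw [← hresW]
    let _ := EDC_act Γ
    refine (hVSH Γ (SL(2, ℝ) × ℝ) (SL(2, ℝ) × ℝ) W W (dG F ×ˢ univ) (dG F ×ˢ univ) (fun γ => hmp γ) (fun γ => hmp γ)
      hact hact (hdG.prod MeasurableSet.univ) (hdG.prod MeasurableSet.univ)
      (fun x y => ‖us D ch A R x y‖ₑ) ?_ ?_).2 a a (fun y => ‖v y‖ₑ) hv.meas.enorm ?_ hK1 hK2
    · exact hKZ.meas.enorm
    · intro γ x y
      have h1 := hKZ.inv γ x y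
      exact congrArg (fun z : ℂ => ‖z‖ₑ) h1
    · intro γ y
      show ‖v ((γ : SL(2, ℝ)) * y.1, y.2)‖ₑ = ‖v y‖ₑ
      rw [hv.inv]
  -- the pointwise bound
  obtain ⟨b, hb⟩ := hKZ.bdd
  obtain ⟨T, hT⟩ := hKZ.range
  obtain ⟨c, hc⟩ := hv.bdd
  have hpt : ∀ p ∈ PW F 2 R, ‖Op (us D ch A R) (fun q => H q * v q) p - H (D.ph (A.sg R) p) * Op (us D ch A R) v p‖ₑ ≤
      ENNReal.ofReal w * ∫⁻ y, ‖us D ch A R p y‖ₑ * ‖v y‖ₑ ∂W := by
    intro p hp
    have hpG := hPG hp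
    have hpG' : D.ph (A.sg R) p ∈ GW 2 R := ⟨mem_univ _, hp.2⟩
    have hKm : Measurable (us D ch A R p) := hKZ.meas.comp measurable_prodMk_left
    have i1 : Integrable (fun q => us D ch A R p q * (H q * v q)) mP := by
      refine EDC_int (R := R) (b := b) (c := c) (T := T) (z := (p.1 • I : ℍ)) hKm (hH.meas.mul hv.meas) (hb p) (fun q => ?_) ?_
      · rw [norm_mul]
        have a1 := hH.bd q
        have a2 := hc q
        calc ‖H q‖ * ‖v q‖ ≤ 1 * ‖v q‖ := mul_le_mul_of_nonneg_right a1 (norm_nonneg _)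
          _ ≤ c := by rw [one_mul]; exact a2
      · intro q hq
        exact ⟨(EDC_us hq).2.1, hT p q hq⟩
    have i2 : Integrable (fun q => us D ch A R p q * v q) mP := by
      refine EDC_int (R := R) (b := b) (c := c) (T := T) (z := (p.1 • I : ℍ)) hKm hv.meas (hb p) hc ?_
      intro q hq
      exact ⟨(EDC_us hq).2.1, hT p q hq⟩
    have e1 : Op (us D ch A R) (fun q => H q * v q) p - H (D.ph (A.sg R) p) * Op (us D ch A R) v p =
        ∫ q, us D ch A R p q * (H q * v q) - H (D.ph (A.sg R) p) * (us D ch A R p q * v q) ∂mP := by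
      rw [integral_sub i1 (i2.const_mul _), integral_const_mul]
      rfl
    rw [e1]
    have e2 : ∀ q, q ∉ GW 2 R → us D ch A R p q = 0 := by
      intro q hq
      by_contra h0
      exact hq (EDC_us h0).2.1
    calc ‖∫ q, us D ch A R p q * (H q * v q) - H (D.ph (A.sg R) p) * (us D ch A R p q * v q) ∂mP‖ₑ
        ≤ ∫⁻ q, ‖us D ch A R p q * (H q * v q) - H (D.ph (A.sg R) p) * (us D ch A R p q * v q)‖ₑ ∂mP :=
          enorm_integral_le_lintegral_enorm _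
      _ ≤ ∫⁻ q, (GW 2 R).indicator (fun q => ENNReal.ofReal w * (‖us D ch A R p q‖ₑ * ‖v q‖ₑ)) q ∂mP := by
          refine lintegral_mono fun q => ?_
          by_cases hq : q ∈ GW 2 R
          · rw [indicator_of_mem hq]
            by_cases h0 : us D ch A R p q = 0
            · rw [h0]
              simp
            · have h1 := hH.var _ _ hpG' hq (EDC_us h0).2.2
              have h2 : us D ch A R p q * (H q * v q) - H (D.ph (A.sg R) p) * (us D ch A R p q * v q) =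
                  -((H (D.ph (A.sg R) p) - H q) * (us D ch A R p q * v q)) := by ring
              rw [h2, enorm_neg, enorm_mul, enorm_mul]
              gcongr
              rw [← ofReal_norm]
              exact ENNReal.ofReal_le_ofReal h1
          · rw [indicator_of_notMem hq, e2 q hq]
            simp
      _ = ∫⁻ q, ENNReal.ofReal w * (‖us D ch A R p q‖ₑ * ‖v q‖ₑ) ∂W := by
          rw [lintegral_indicator (EDC_GWm R)]
      _ = ENNReal.ofReal w * ∫⁻ y, ‖us D ch A R p y‖ₑ * ‖v y‖ₑ ∂W := by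
          rw [lintegral_const_mul' _ _ ENNReal.ofReal_ne_top]
  have htot : ∫⁻ p in PW F 2 R, ‖Op (us D ch A R) (fun q => H q * v q) p - H (D.ph (A.sg R) p) * Op (us D ch A R) v p‖ₑ ^ 2 ∂mP ≤
      ENNReal.ofReal (w ^ 2 * R ^ (1 / 100 : ℝ)) * ∫⁻ y in PW F 2 R, ‖v y‖ₑ ^ 2 ∂mP := by
    calc ∫⁻ p in PW F 2 R, ‖Op (us D ch A R) (fun q => H q * v q) p - H (D.ph (A.sg R) p) * Op (us D ch A R) v p‖ₑ ^ 2 ∂mP
        ≤ ∫⁻ p in PW F 2 R, ENNReal.ofReal w ^ 2 * (∫⁻ y, ‖us D ch A R p y‖ₑ * ‖v y‖ₑ ∂W) ^ 2 ∂mP := by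
          refine setLIntegral_mono' hPWm fun p hp => ?_
          rw [← mul_pow]
          have := hpt p hp
          gcongr
      _ = ENNReal.ofReal w ^ 2 * ∫⁻ p in PW F 2 R, (∫⁻ y, ‖us D ch A R p y‖ₑ * ‖v y‖ₑ ∂W) ^ 2 ∂mP := by
          rw [lintegral_const_mul' _ _ (ENNReal.pow_ne_top ENNReal.ofReal_ne_top)]
      _ ≤ ENNReal.ofReal w ^ 2 * (a * a * ∫⁻ y in PW F 2 R, ‖v y‖ₑ ^ 2 ∂mP) := by gcongr
      _ = ENNReal.ofReal w ^ 2 * (a * a) * ∫⁻ y in PW F 2 R, ‖v y‖ₑ ^ 2 ∂mP := by ring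
      _ ≤ ENNReal.ofReal (w ^ 2 * R ^ (1 / 100 : ℝ)) * ∫⁻ y in PW F 2 R, ‖v y‖ₑ ^ 2 ∂mP := by
          gcongr
          rw [ha, ← ENNReal.ofReal_mul (by positivity), ← ENNReal.ofReal_pow hw, ← ENNReal.ofReal_mul (by positivity)]
          refine ENNReal.ofReal_le_ofReal (mul_le_mul_of_nonneg_left ?_ (sq_nonneg w))
          rw [← Real.rpow_add (by linarith)]
          refine Real.rpow_le_rpow_of_exponent_le hR1' ?_
          nlinarith
  have hfin := EDC_fin hF R hv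
  refine (EDC_nP_le _).trans ?_
  rw [EDC_nP hv.meas, ← ENNReal.toReal_ofReal (by positivity : 0 ≤ w ^ 2 * R ^ (1 / 100 : ℝ)), ← ENNReal.toReal_mul]
  exact ENNReal.toReal_mono (ENNReal.mul_ne_top ENNReal.ofReal_ne_top hfin) htot

end

end Pool.Agent.VQ
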