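import Pool.Agent.helper11.VQ.Spec3c
import Pool.Agent.helper31.RPQ.SER
import Pool.Agent.helper55.RPQ.LIP
import Pool.Agent.helper53.RPQ.RSM

/-!
# Row vq:FNX (MP_07c750_an, project VQ): density of the metrics with full quantum unique ergodicity

Term by term estimate of the seminorms of a series (`FNX_tsum`), positive measure of the boxes (`FNX_box`), and the corollary: in the output of FNV, for every `f0`, `n0` and `τ > 0` there is
a `ζ` in the full set with all seminorms of order `≤ n0` of the series at most `τ`.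
-/

set_option autoImplicit false

open scoped MatrixGroups ContDiff Topology UpperHalfPlane ComplexConjugate ENNReal
open UpperHalfPlane MeasureTheory Filter Set

namespace Pool.Agent.VQ

open Pool.Agent.RS
open Pool.Agent.RPQ (CEig mean VV MO Net CkB PN UN Eqd)

theorem FNX_mono {n : ℕ} {f : ℍ → ℝ} {a b : ℝ} (h : a ≤ b) (hf : CkB n f a) : CkB n f b :=
  fun g => (hf g).trans h

theorem FNX_comp {n : ℕ} {f : ℍ → ℝ} {B : ℝ} (h : CkB n f B) (g : SL(2, ℝ)) : CkB n (fun z => f (g • z)) B := by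
  intro g'
  have h1 := h (g * g')
  simp only [mul_smul] at h1
  exact h1

/-- the seminorms of a series -/
theorem FNX_at {v : ℕ → ℍ → ℝ} (hv : ∀ k, QU.CD ∞ (v k)) {c : ℕ → ℕ → ℝ} (hc : ∀ n, Summable (c n))
    (hcb : ∀ n k, CkB n (v k) (c n k)) {w₀ : ℂ} (hw₀ : 0 < w₀.im) (m : ℕ) :
    iteratedFDeriv ℝ m (QU.onC fun z => ∑' k, v k z) w₀ = ∑' k, iteratedFDeriv ℝ m (QU.onC (v k)) w₀ := by
  let b : ContDiffBump w₀ := ⟨w₀.im / 4, w₀.im / 2, by positivity, by linarith⟩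
  have hball : ∀ w ∈ tsupport (b : ℂ → ℝ), w₀.im / 2 ≤ w.im := by
    intro w hw
    rw [b.tsupport_eq, Metric.mem_closedBall, Complex.dist_eq] at hw
    have h1 : |(w - w₀).im| ≤ w₀.im / 2 := (Complex.abs_im_le_norm _).trans hw
    rw [Complex.sub_im] at h1
    have h2 := (abs_le.1 h1).1
    linarith
  have hbs : ContDiff ℝ ∞ (b : ℂ → ℝ) := b.contDiff
  have hFs : ∀ k, ∀ w : ℂ, 0 < w.im → ContDiffAt ℝ ∞ (QU.onC (v k)) w := fun k w hw =>
    (hv k).contDiffAt (RPQ.SER_isOpen.mem_nhds hw)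
  have hf : ∀ k, ContDiff ℝ ∞ (fun w : ℂ => b w * QU.onC (v k) w) := by
    intro k
    rw [contDiff_iff_contDiffAt]
    intro w
    by_cases h1 : w ∈ tsupport (b : ℂ → ℝ)
    · have h2 := hball w h1
      exact hbs.contDiffAt.mul (hFs k w (by linarith))
    · have h3 : (b : ℂ → ℝ) =ᶠ[𝓝 w] 0 := notMem_tsupport_iff_eventuallyEq.1 h1
      have h4 : (fun w : ℂ => b w * QU.onC (v k) w) =ᶠ[𝓝 w] fun _ => 0 := by
        filter_upwards [h3] with u hu
        rw [hu]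
        simp
      exact contDiffAt_const.congr_of_eventuallyEq h4
  have hM : ∀ i : ℕ, ∃ M : ℝ, 0 ≤ M ∧ ∀ w, ‖iteratedFDeriv ℝ i (b : ℂ → ℝ) w‖ ≤ M := by
    intro i
    have h1 : HasCompactSupport (iteratedFDeriv ℝ i (b : ℂ → ℝ)) := b.hasCompactSupport.iteratedFDeriv i
    have h2 : Continuous (iteratedFDeriv ℝ i (b : ℂ → ℝ)) :=
      hbs.continuous_iteratedFDeriv (by exact_mod_cast le_top)
    obtain ⟨M, hM⟩ := h1.exists_bound_of_continuous h2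
    exact ⟨M, (norm_nonneg _).trans (hM 0), hM⟩
  choose M hM0 hM using hM
  have hsum := iteratedFDeriv_tsum (𝕜 := ℝ) (N := ⊤) (f := fun (k : ℕ) (w : ℂ) => b w * QU.onC (v k) w)
    (v := fun n k => ∑ i ∈ Finset.range (n + 1), (n.choose i : ℝ) * M i *
      (c (n - i) k * ((w₀.im / 2)⁻¹) ^ (n - i))) hf (by
      intro n _
      apply summable_sum
      intro i _
      exact ((hc (n - i)).mul_right _).mul_left _) (by
      intro n k w _
      by_cases hw : w ∈ tsupport (b : ℂ → ℝ)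
      · have h2 := hball w hw
        have hwp : 0 < w.im := by linarith
        have h3 := norm_iteratedFDerivWithin_mul_le (𝕜 := ℝ) (A := ℝ) (N := ∞) (s := {w : ℂ | 0 < w.im})
          (f := fun w : ℂ => (b w : ℝ)) (g := QU.onC (v k))
          hbs.contDiffOn (hv k) RPQ.SER_isOpen.uniqueDiffOn (x := w) hwp (n := n) (by exact_mod_cast le_top)
        simp only [iteratedFDerivWithin_of_isOpen _ RPQ.SER_isOpen (show w ∈ {w : ℂ | 0 < w.im} from hwp)] at h3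
        refine h3.trans ?_
        apply Finset.sum_le_sum
        intro i _
        have h4 := RPQ.SER_bd (hcb (n - i) k) hwp
        have hc0 : 0 ≤ c (n - i) k := (norm_nonneg _).trans (hcb (n - i) k 1)
        have h5 : c (n - i) k * (w.im⁻¹) ^ (n - i) ≤ c (n - i) k * ((w₀.im / 2)⁻¹) ^ (n - i) := by
          apply mul_le_mul_of_nonneg_left _ hc0
          apply pow_le_pow_left₀ (by positivity)
          exact inv_anti₀ (by positivity) h2
        have h6 := h4.trans h5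
        have h7 := hM i w
        have h8 : (n.choose i : ℝ) * ‖iteratedFDeriv ℝ i (b : ℂ → ℝ) w‖ ≤ (n.choose i : ℝ) * M i :=
          mul_le_mul_of_nonneg_left h7 (Nat.cast_nonneg _)
        exact mul_le_mul h8 h6 (norm_nonneg _) (mul_nonneg (Nat.cast_nonneg _) (hM0 i))
      · have h2 : (fun w : ℂ => b w * QU.onC (v k) w) =ᶠ[𝓝 w] fun _ => 0 := by
          have h3 : (b : ℂ → ℝ) =ᶠ[𝓝 w] 0 := notMem_tsupport_iff_eventuallyEq.1 hw
          filter_upwards [h3] with u hu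
          rw [hu]
          simp
        rw [(h2.iteratedFDeriv ℝ n).eq_of_nhds]
        have h4 : ‖iteratedFDeriv ℝ n (fun _ : ℂ => (0 : ℝ)) w‖ = 0 := by
          rw [iteratedFDeriv_fun_zero]
          simp
        rw [h4]
        apply Finset.sum_nonneg
        intro i _
        have hc0 : 0 ≤ c (n - i) k := (norm_nonneg _).trans (hcb (n - i) k 1)
        have := hM0 i
        positivity) (k := m) (by exact_mod_cast le_top)
  have heq : (QU.onC fun z => ∑' k, v k z) =ᶠ[𝓝 w₀] fun w : ℂ => ∑' k, b w * QU.onC (v k) w := by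
    filter_upwards [b.eventuallyEq_one] with w hw
    show ∑' k, v k (ofComplex w) = ∑' k, b w * v k (ofComplex w)
    rw [hw]
    simp
  have heq2 : ∀ k, (fun w : ℂ => b w * QU.onC (v k) w) =ᶠ[𝓝 w₀] QU.onC (v k) := by
    intro k
    filter_upwards [b.eventuallyEq_one] with w hw
    rw [hw]
    simp
  rw [(heq.iteratedFDeriv ℝ m).eq_of_nhds, hsum]
  refine tsum_congr fun k => ?_
  exact ((heq2 k).iteratedFDeriv ℝ m).eq_of_nhds

theorem FNX_tsum {v : ℕ → ℍ → ℝ} (hv : ∀ k, QU.CD ∞ (v k)) {c : ℕ → ℕ → ℝ} (hc : ∀ n, Summable (c n))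
    (hcb : ∀ n k, CkB n (v k) (c n k)) (n : ℕ) : CkB n (fun z => ∑' k, v k z) (∑' k, c n k) := by
  intro g
  have h1 := FNX_at (v := fun k z => v k (g • z)) (fun k => RPQ.LIP_cd (v k) g ∞ (hv k)) hc
    (fun n k => FNX_comp (hcb n k) g) (w₀ := (I : ℍ)) (I : ℍ).im_pos n
  show ‖iteratedFDeriv ℝ n (QU.onC fun z => ∑' k, v k (g • z)) ((I : ℍ) : ℂ)‖ ≤ _
  rw [h1]
  exact tsum_of_norm_bounded (hc n).hasSum (fun k => hcb n k g)

theorem FNX_smul {f : ℍ → ℝ} (hf : QU.CD ∞ f) {n : ℕ} {B a : ℝ} (ha : 0 ≤ a) (h : CkB n f B) : CkB n (fun z => a * f z) (a * B) := by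
  intro g
  have h1 : ContDiffAt ℝ ∞ (QU.onC fun z => f (g • z)) ((I : ℍ) : ℂ) :=
    (RPQ.LIP_cd f g ∞ hf).contDiffAt (RPQ.SER_isOpen.mem_nhds (I : ℍ).im_pos)
  have h2 : iteratedFDeriv ℝ n (QU.onC fun z => a * f (g • z)) ((I : ℍ) : ℂ) =
      a • iteratedFDeriv ℝ n (QU.onC fun z => f (g • z)) ((I : ℍ) : ℂ) := by
    have h3 := iteratedFDeriv_const_smul_apply (𝕜 := ℝ) (i := n) (a := a) (f := QU.onC fun z => f (g • z)) (x := ((I : ℍ) : ℂ))
      (h1.of_le (by exact_mod_cast le_top))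
    exact h3
  show ‖iteratedFDeriv ℝ n (QU.onC fun z => a * f (g • z)) ((I : ℍ) : ℂ)‖ ≤ _
  rw [h2, norm_smul, Real.norm_of_nonneg ha]
  exact mul_le_mul_of_nonneg_left (h g) ha

/-- boxes have positive measure -/
theorem FNX_box (Q : Finset (ℕ × ℕ)) (t : ℝ) (ht : 0 < t) (ht1 : t ≤ 1) : PN {ζ | ∀ q ∈ Q, |ζ q| ≤ t} ≠ 0 := by
  have h1 : {ζ : ℕ × ℕ → ℝ | ∀ q ∈ Q, |ζ q| ≤ t} = Set.pi (Q : Set (ℕ × ℕ)) fun _ => Icc (-t) t := by
    ext ζ
    simp only [mem_ofPred_eq, Set.mem_pi, Finset.mem_coe, mem_Icc, abs_le]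
  have h2 : UN (Icc (-t) t) ≠ 0 := by
    unfold UN
    rw [Measure.smul_apply, Measure.restrict_apply measurableSet_Icc, smul_eq_mul,
      inter_eq_left.2 (Icc_subset_Icc (by linarith) ht1), Real.volume_Icc]
    refine mul_ne_zero (by simp) ?_
    rw [Ne, ENNReal.ofReal_eq_zero, not_le]
    linarith
  rw [h1]
  unfold PN
  rw [Measure.infinitePi_pi _ (fun i _ => measurableSet_Icc)]
  exact Finset.prod_ne_zero_iff.2 fun q _ => h2

/-- the general form -/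
theorem FNX_gen (hRSM : RPQ.RSM_stmt) (J : ℕ → ℕ) (u : ℕ → ℕ → ℍ → ℝ) (hu : ∀ k j, QU.CD ∞ (u k j))
    (hsum : ∀ n : ℕ, ∃ c : ℕ → ℝ, Summable c ∧ ∀ (k : ℕ) (ξ : ℕ → ℝ), (∀ j, |ξ j| ≤ 1) → CkB n (fun z => ∑ j ∈ Finset.range (J k), ξ j * u k j z) (c k))
    (P : (ℕ × ℕ → ℝ) → Prop) (hP : ∀ᵐ ζ ∂PN, P ζ) (n0 : ℕ) (τ : ℝ) (hτ : 0 < τ) :
    ∃ ζ : ℕ × ℕ → ℝ, (∀ q, |ζ q| ≤ 1) ∧ (∀ n ≤ n0, CkB n (fun z => ∑' k, ∑ j ∈ Finset.range (J k), ζ (k, j) * u k j z) τ) ∧ P ζ := by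
  choose c hc hcb using hsum
  have hc0 : ∀ n k, 0 ≤ c n k := fun n k => (norm_nonneg _).trans (hcb n k (fun _ => 0) (by simp) 1)
  set d : ℕ → ℝ := fun k => ∑ n ∈ Finset.range (n0 + 1), c n k with hd
  have hdS : Summable d := summable_sum fun n _ => hc n
  have hd0 : ∀ k, 0 ≤ d k := fun k => Finset.sum_nonneg fun n _ => hc0 n k
  have hcd : ∀ n ≤ n0, ∀ k, c n k ≤ d k := fun n hn k =>
    Finset.single_le_sum (f := fun n => c n k) (fun n _ => hc0 n k) (Finset.mem_range.2 (by omega))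
  obtain ⟨K0, hK0⟩ := ((tendsto_sum_nat_add d).eventually_lt_const (half_pos hτ)).exists
  set S : ℝ := ∑' k, d k with hS
  have hS0 : 0 ≤ S := tsum_nonneg hd0
  set t : ℝ := min 1 (τ / (2 * (S + 1))) with ht
  have ht0 : 0 < t := lt_min one_pos (by positivity)
  have htS : t * S ≤ τ / 2 := by
    have h1 : t ≤ τ / (2 * (S + 1)) := min_le_right _ _
    calc t * S ≤ τ / (2 * (S + 1)) * (S + 1) := by
          apply mul_le_mul h1 (by linarith) hS0 (by positivity)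
      _ = τ / 2 := by field_simp
  set Q : Finset (ℕ × ℕ) := (Finset.range K0).sigma (fun k => Finset.range (J k)) |>.image (fun x => (x.1, x.2)) with hQ
  have hQm : ∀ k j, k < K0 → j < J k → (k, j) ∈ Q := by
    intro k j hk hj
    rw [hQ, Finset.mem_image]
    exact ⟨⟨k, j⟩, Finset.mem_sigma.2 ⟨Finset.mem_range.2 hk, Finset.mem_range.2 hj⟩, rfl⟩
  obtain ⟨ζ, hζQ, hζP, hζ1⟩ : ∃ ζ, (∀ q ∈ Q, |ζ q| ≤ t) ∧ P ζ ∧ ∀ q, |ζ q| ≤ 1 := by
    by_contra hno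
    refine FNX_box Q t ht0 (min_le_left _ _) (measure_mono_null ?_ (hP.and hRSM.2.1))
    intro ζ hζ hb
    exact hno ⟨ζ, hζ, hb.1, hb.2⟩
  refine ⟨ζ, hζ1, ?_, hζP⟩
  have hcdk : ∀ (k : ℕ) (ξ : ℕ → ℝ), QU.CD ∞ (fun z => ∑ j ∈ Finset.range (J k), ξ j * u k j z) := by
    intro k ξ
    show ContDiffOn ℝ ∞ (fun w => ∑ j ∈ Finset.range (J k), ξ j * QU.onC (u k j) w) _
    exact ContDiffOn.sum fun j _ => contDiffOn_const.mul (hu k j)
  have hb : ∀ n k, CkB n (fun z => ∑ j ∈ Finset.range (J k), ζ (k, j) * u k j z) (t * c n k + if k < K0 then 0 else c n k) := by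
    intro n k
    by_cases hk : k < K0
    · rw [if_pos hk, add_zero]
      set ξ : ℕ → ℝ := fun j => if j < J k then ζ (k, j) / t else 0 with hξ
      have h1 : ∀ j, |ξ j| ≤ 1 := by
        intro j
        rw [hξ]
        show |if j < J k then ζ (k, j) / t else 0| ≤ 1
        split_ifs with hj
        · rw [abs_div, abs_of_pos ht0, div_le_one ht0]
          exact hζQ _ (hQm k j hk hj)
        · simp
      have h2 := FNX_smul (hcdk k ξ) ht0.le (hcb n k ξ h1)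
      have h3 : (fun z => ∑ j ∈ Finset.range (J k), ζ (k, j) * u k j z) = fun z => t * ∑ j ∈ Finset.range (J k), ξ j * u k j z := by
        funext z
        rw [Finset.mul_sum]
        refine Finset.sum_congr rfl fun j hj => ?_
        rw [hξ]
        show ζ (k, j) * u k j z = t * ((if j < J k then ζ (k, j) / t else 0) * u k j z)
        rw [if_pos (Finset.mem_range.1 hj)]
        field_simp
      rw [h3]
      exact h2
    · rw [if_neg hk]
      refine FNX_mono ?_ (hcb n k (fun j => ζ (k, j)) (fun j => hζ1 _))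
      have := mul_nonneg ht0.le (hc0 n k)
      linarith
  have hs2 : ∀ n, Summable fun k => if k < K0 then 0 else c n k := by
    intro n
    refine Summable.of_nonneg_of_le (fun k => ?_) (fun k => ?_) (hc n)
    · split_ifs
      · exact le_rfl
      · exact hc0 n k
    · split_ifs
      · exact hc0 n k
      · exact le_rfl
  have hs1 : ∀ n, Summable fun k => t * c n k + if k < K0 then 0 else c n k := fun n => ((hc n).mul_left t).add (hs2 n)
  intro n hn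
  refine FNX_mono ?_ (FNX_tsum (fun k => hcdk k _) hs1 hb n)
  rw [Summable.tsum_add ((hc n).mul_left t) (hs2 n), tsum_mul_left]
  have e1 : t * ∑' k, c n k ≤ τ / 2 :=
    (mul_le_mul_of_nonneg_left ((hc n).tsum_le_tsum (hcd n hn) hdS) ht0.le).trans htS
  have e2 : ∑' k, (if k < K0 then 0 else c n k) ≤ τ / 2 := by
    rw [← (hs2 n).sum_add_tsum_nat_add K0]
    have e3 : ∑ i ∈ Finset.range K0, (if i < K0 then 0 else c n i) = 0 :=
      Finset.sum_eq_zero fun i hi => by rw [if_pos (Finset.mem_range.1 hi)]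
    rw [e3, zero_add]
    have e4 : ∀ i, (if i + K0 < K0 then 0 else c n (i + K0)) = c n (i + K0) := fun i => by rw [if_neg (by omega)]
    simp only [e4]
    exact (((summable_nat_add_iff K0).2 (hc n)).tsum_le_tsum (fun i => hcd n hn (i + K0)) ((summable_nat_add_iff K0).2 hdS)).trans hK0.le
  linarith

/-- the output of FNV together with the density clause -/
def FNX_stmt : Prop := ∀ Γ : Subgroup SL(2, ℝ), QU.SurfaceGroup Γ → ∃ (η : ℝ) (k0 : ℕ) (J : ℕ → ℕ) (u : ℕ → ℕ → ℍ → ℝ), 0 < η ∧ η ≤ 1 / 8 ∧ (∀ k, k0 ≤ k → 1 ≤ J k) ∧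
  (∀ k j, QU.CD ∞ (u k j) ∧ QU.Inv Γ (u k j) ∧ ∀ z, 0 ≤ u k j z) ∧
  (∀ n : ℕ, ∃ c : ℕ → ℝ, Summable c ∧ ∀ (k : ℕ) (ξ : ℕ → ℝ), (∀ j, |ξ j| ≤ 1) → CkB n (fun z => ∑ j ∈ Finset.range (J k), ξ j * u k j z) (c k)) ∧
  (∀ ζ : ℕ × ℕ → ℝ, (∀ q, |ζ q| ≤ 1) → QU.CD ∞ (fun z => ∑' k, ∑ j ∈ Finset.range (J k), ζ (k, j) * u k j z) ∧ ∀ n ≤ 3, CkB n (fun z => ∑' k, ∑ j ∈ Finset.range (J k), ζ (k, j) * u k j z) η) ∧
  ∀ f0 : ℍ → ℝ, QU.CD ∞ f0 → QU.Inv Γ f0 → (∀ n ≤ 3, CkB n f0 η) →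
    (∀ᵐ ζ ∂PN, ∀ ε : ℝ, 0 < ε → ∃ r0 : ℝ, 0 < r0 ∧ ∀ (F : Set ℍ) (μ : ℝ) (φ : ℍ → ℂ), QU.NiceDom Γ F → r0 ≤ μ →
      CEig Γ (fun z => f0 z + ∑' k, ∑ j ∈ Finset.range (J k), ζ (k, j) * u k j z) μ φ → Eqd Γ F (fun z => f0 z + ∑' k, ∑ j ∈ Finset.range (J k), ζ (k, j) * u k j z) ε φ) ∧
    ∀ (n0 : ℕ) (τ : ℝ), 0 < τ → ∃ ζ : ℕ × ℕ → ℝ, (∀ q, |ζ q| ≤ 1) ∧ (∀ n ≤ n0, CkB n (fun z => ∑' k, ∑ j ∈ Finset.range (J k), ζ (k, j) * u k j z) τ) ∧
      ∀ ε : ℝ, 0 < ε → ∃ r0 : ℝ, 0 < r0 ∧ ∀ (F : Set ℍ) (μ : ℝ) (φ : ℍ → ℂ), QU.NiceDom Γ F → r0 ≤ μ →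
        CEig Γ (fun z => f0 z + ∑' k, ∑ j ∈ Finset.range (J k), ζ (k, j) * u k j z) μ φ → Eqd Γ F (fun z => f0 z + ∑' k, ∑ j ∈ Finset.range (J k), ζ (k, j) * u k j z) ε φ

theorem FNX (hFNV : FNV_stmt) (hRSM : RPQ.RSM_stmt) : FNX_stmt := by
  intro Γ hΓ
  obtain ⟨η, k0, J, u, h1, h2, h3, h4, h5, h6, h7⟩ := hFNV Γ hΓ
  refine ⟨η, k0, J, u, h1, h2, h3, h4, h5, h6, fun f0 hf0 hf1 hf2 => ⟨h7 f0 hf0 hf1 hf2, fun n0 τ hτ => ?_⟩⟩
  exact FNX_gen hRSM J u (fun k j => (h4 k j).1) h5 _ (h7 f0 hf0 hf1 hf2) n0 τ hτ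

end Pool.Agent.VQ
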