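import Pool.Agent.helper11.VQ.Spec3c

/-!
# Row vq:BC2 (MP_07c750_an, project VQ): Borel-Cantelli for one test function
-/

set_option autoImplicit false

open scoped MatrixGroups ContDiff Topology UpperHalfPlane ComplexConjugate ENNReal
open UpperHalfPlane MeasureTheory Filter Set

namespace Pool.Agent.VQ

open Pool.Agent.RS
open Pool.Agent.RPQ (CEig mean VV MO Net CkB PN)

theorem BC2_CkB {n : ℕ} {f : ℍ → ℝ} {a b : ℝ} (h : a ≤ b) (hf : CkB n f a) : CkB n f b :=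
  fun g => (hf g).trans h

theorem BC2_Pot {Γ : Subgroup SL(2, ℝ)} {δ δ' : ℝ} {B : ℕ → ℝ} {U : ℍ → ℝ} (h : δ ≤ δ') (hU : Pot Γ δ B U) : Pot Γ δ' B U :=
  ⟨hU.smooth, hU.inv, fun g v hv n hn => (hU.near g v hv n hn).trans h, hU.bd⟩

theorem BC2_OKD {Γ : Subgroup SL(2, ℝ)} {δ δ' : ℝ} {B : ℕ → ℝ} {D : Dyn} (hD : OKD Γ δ B D) (hp : Pot Γ δ' B D.U) : OKD Γ δ' B D :=
  { hD with pot := hp }

theorem BC2_FamV {Γ : Subgroup SL(2, ℝ)} {κ : ℝ → ℝ} {C0 η η' : ℝ} {k0 : ℕ} {J : ℕ → ℕ} {p : (k : ℕ) → Fin (J k) → ℍ}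
    {χ : (k : ℕ) → Fin (J k) → ℍ → ℝ} (h : η ≤ η') (hF : FamV Γ κ C0 η k0 J p χ) : FamV Γ κ C0 η' k0 J p χ := by
  obtain ⟨c, C', h1, h2, h3, h4, h5⟩ := hF.sum
  exact { hF with sum := ⟨c, C', h1, h2, fun n hn => (h3 n hn).trans h, h4, h5⟩ }

theorem BC2_UWL {D : Dyn} {F : Set ℍ} {h : ℍ → ℝ} {e v0 C1 T0 E0 E1 : ℝ} (hE : E1 ≤ E0) (hU : UWL D F h e v0 C1 T0 E0) :
    UWL D F h e v0 C1 T0 E1 :=
  fun E γ h1 h2 => hU E γ (h1.trans hE) h2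

/-- summability -/
theorem BC2_sum (i0 : ℕ) (S : ℕ → Set (ℕ × ℕ → ℝ)) (h : ∀ j : ℕ, PN (S j) ≤ ENNReal.ofReal (((i0 + 1 + j : ℕ) : ℝ) ^ (-2 : ℝ))) :
    ∑' i, PN (S i) ≠ ⊤ := by
  have hs : Summable fun j : ℕ => 1 / ((j + 1 : ℕ) : ℝ) ^ 2 :=
    (summable_nat_add_iff 1).2 (Real.summable_one_div_nat_pow.2 (by norm_num))
  have h1 : ∀ j : ℕ, PN (S j) ≤ ENNReal.ofReal (1 / ((j + 1 : ℕ) : ℝ) ^ 2) := by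
    intro j
    refine (h j).trans (ENNReal.ofReal_le_ofReal ?_)
    have hj : (0 : ℝ) < ((j + 1 : ℕ) : ℝ) := by positivity
    have hij : ((j + 1 : ℕ) : ℝ) ≤ ((i0 + 1 + j : ℕ) : ℝ) := by exact_mod_cast (by omega : j + 1 ≤ i0 + 1 + j)
    have hi : (0 : ℝ) < ((i0 + 1 + j : ℕ) : ℝ) := hj.trans_le hij
    rw [Real.rpow_neg hi.le, show (2 : ℝ) = ((2 : ℕ) : ℝ) by norm_num, Real.rpow_natCast, one_div]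
    exact inv_anti₀ (by positivity) (pow_le_pow_left₀ hj.le hij 2)
  have h2 : ∑' j : ℕ, ENNReal.ofReal (1 / ((j + 1 : ℕ) : ℝ) ^ 2) ≠ ⊤ := by
    rw [← ENNReal.ofReal_tsum_of_nonneg (fun i => by positivity) hs]
    exact ENNReal.ofReal_ne_top
  exact ne_top_of_le_ne_top h2 (ENNReal.tsum_le_tsum h1)

/-- `⌊μ⌋` and `μ` -/
theorem BC2_floor (μ : ℝ) (hμ : 1 ≤ μ) : |Real.sqrt μ - Real.sqrt (⌊μ⌋₊ : ℕ)| ≤ Real.sqrt (⌊μ⌋₊ : ℕ) ^ (-(1 / 100) : ℝ) := by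
  have hμ0 : 0 ≤ μ := by linarith
  have h1 : ((⌊μ⌋₊ : ℕ) : ℝ) ≤ μ := Nat.floor_le hμ0
  have h2 : μ < (⌊μ⌋₊ : ℕ) + 1 := Nat.lt_floor_add_one μ
  have h3 : 1 ≤ ⌊μ⌋₊ := (Nat.one_le_floor_iff μ).2 hμ
  have h4 : (1 : ℝ) ≤ ((⌊μ⌋₊ : ℕ) : ℝ) := by exact_mod_cast h3
  have h5 : 1 ≤ Real.sqrt (⌊μ⌋₊ : ℕ) := Real.one_le_sqrt.2 h4
  have h6 : Real.sqrt (⌊μ⌋₊ : ℕ) ≤ Real.sqrt μ := Real.sqrt_le_sqrt h1
  rw [abs_of_nonneg (sub_nonneg.2 h6)]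
  have h7 : (Real.sqrt μ - Real.sqrt (⌊μ⌋₊ : ℕ)) * (Real.sqrt μ + Real.sqrt (⌊μ⌋₊ : ℕ)) ≤ 1 := by
    have e1 := Real.mul_self_sqrt hμ0
    have e2 := Real.mul_self_sqrt (Nat.cast_nonneg (α := ℝ) ⌊μ⌋₊)
    nlinarith
  have h8 : (Real.sqrt μ - Real.sqrt (⌊μ⌋₊ : ℕ)) * Real.sqrt (⌊μ⌋₊ : ℕ) ≤ 1 := by
    nlinarith [mul_nonneg (sub_nonneg.2 h6) (Real.sqrt_nonneg μ)]
  have h9 : Real.sqrt μ - Real.sqrt (⌊μ⌋₊ : ℕ) ≤ (Real.sqrt (⌊μ⌋₊ : ℕ))⁻¹ := by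
    rw [inv_eq_one_div, le_div_iff₀ (by linarith)]
    exact h8
  refine h9.trans ?_
  rw [← Real.rpow_neg_one]
  exact Real.rpow_le_rpow_of_exponent_le h5 (by norm_num)

theorem BC2_proof (hBC1 : BC1_stmt) (hIDY : IDY_stmt) (hIUW : IUW_stmt) (hSEV : SEV_stmt) (hPCL : PCL_stmt)
    (hRSM : RPQ.RSM_stmt) : BC2_stmt := by
  intro Γ F κ hΓ hF hκ
  obtain ⟨hP, hone, -⟩ := hRSM
  have := hP
  obtain ⟨δ1, hδ1, hIDY'⟩ := hIDY Γ hΓ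
  obtain ⟨δ2, hδ2, hIUW'⟩ := hIUW Γ F hΓ hF
  obtain ⟨δ, η1, hδ, hδle, hη1, hBC⟩ := hBC1 Γ F κ (min δ1 δ2) hΓ hF hκ (lt_min hδ1 hδ2)
  obtain ⟨Cp, hCp, hPCL'⟩ := hPCL
  refine ⟨min η1 (1 / 2), lt_min hη1 (by norm_num), min_le_right _ _, ?_⟩
  intro C0 k0 J p χ f0 hFam hf0 hf1 hf2 h e hh he
  obtain ⟨v0, C1, hv0, hC1, hBC'⟩ := hBC h e hh he
  have hFam1 : FamV Γ κ C0 η1 k0 J p χ := BC2_FamV (min_le_left _ _) hFam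
  obtain ⟨B, hPot, hbad⟩ := hBC' C0 k0 J p χ f0 hFam1 hf0 hf1 (fun n hn => BC2_CkB (min_le_left _ _) (hf2 n hn))
  obtain ⟨⟨b, hS1⟩, hS2⟩ := hSEV Γ κ C0 (min η1 (1 / 2)) k0 J p χ f0 hΓ hFam hf0 hf1 hf2
  -- the conclusion for one pair of parameters
  have key : ∀ a : ℕ × ℕ, ∀ᵐ ζ ∂PN, ∃ I1 : ℕ, ∀ i : ℕ, I1 ≤ i → ∃ (K : ℕ) (v : (ℕ × ℕ → ℝ) → ℕ × ℕ → ℝ),
      2 ^ K ≤ Real.sqrt i ∧ Real.sqrt i ≤ 2 ^ (K + 1) ∧ (∀ ζ q, |v ζ q| ≤ 1) ∧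
      (∀ ζ : ℕ × ℕ → ℝ, (∀ q, |ζ q| ≤ 1) → ∀ q : ℕ × ℕ, q.1 ≤ 4 * K → q.1 ≠ K → q.2 < J q.1 → |v ζ q - ζ q| ≤ Real.sqrt i ^ (-10 : ℝ)) ∧
      ((∀ q, |ζ q| ≤ 1) → (∀ D : Dyn, OKD Γ δ B D → D.U = (fun z => Real.exp (bs χ f0 K (v ζ) z)) →
        UWL D F h (e / 8) v0 C1 ((a.1 + 1 : ℕ) : ℝ) (1 / ((a.2 : ℝ) + 1))) →
        ∀ (μ : ℝ) (φ : ℍ → ℂ), 0 < μ → |Real.sqrt μ - Real.sqrt i| ≤ Real.sqrt i ^ (-(1 / 100) : ℝ) →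
          CEig Γ (fun z => f0 z + rV χ ζ z) μ φ → |(∫ z in F, h z * ‖φ z‖ ^ 2) - mean F h * nn F φ| ≤ e * nn F φ) := by
    intro a
    obtain ⟨i0, hi0⟩ := hbad ((a.1 + 1 : ℕ) : ℝ) (1 / ((a.2 : ℝ) + 1)) (by push_cast; linarith [(Nat.cast_nonneg a.1 : (0 : ℝ) ≤ a.1)]) (by positivity)
    choose K v hKv using fun j : ℕ => hi0 (i0 + 1 + j) (by omega)
    have hae := ae_eventually_notMem (BC2_sum i0 _ (fun j => (hKv j).2.2.2.2))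
    filter_upwards [hae] with ζ hζ
    obtain ⟨J1, hJ1⟩ := eventually_atTop.1 hζ
    refine ⟨i0 + 1 + J1, fun i hi => ?_⟩
    obtain ⟨j, rfl⟩ : ∃ j, i = i0 + 1 + j := ⟨i - (i0 + 1), by omega⟩
    refine ⟨K j, v j, (hKv j).1, (hKv j).2.1, (hKv j).2.2.1, (hKv j).2.2.2.1, ?_⟩
    intro h1 h2 μ φ hμ1 hμ2 hμ3
    by_contra hcon
    rw [not_le] at hcon
    exact hJ1 j (by omega) ⟨h1, h2, μ, φ, hμ1, hμ2, hμ3, hcon⟩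
  filter_upwards [ae_all_iff.2 key, hone] with ζ hζ h1
  -- the dynamics of the limit potential
  have hPζ := (hPot ζ h1).1
  obtain ⟨D, hDU, hD1⟩ := hIDY' B (fun z => Real.exp (f0 z + rV χ ζ z)) (BC2_Pot (hδle.trans (min_le_left _ _)) hPζ)
  have hD2 : OKD Γ δ2 B D := BC2_OKD hD1 (by
    rw [hDU]
    exact BC2_Pot (hδle.trans (min_le_right _ _)) hPζ)
  obtain ⟨T0, E0, s, hT0, hE0, hs, hUW⟩ := hIUW' C1 hC1 B D h (e / 8) v0 hD2 hh (by positivity) hv0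
  obtain ⟨q, hq⟩ := exists_nat_one_div_lt hE0
  obtain ⟨I1, hI1⟩ := hζ (T0 - 1, q)
  have hCp0 : 0 < Cp := by linarith
  obtain ⟨K0, hK0⟩ := hS2 (min 1 (s / Cp)) (lt_min one_pos (div_pos hs hCp0))
  -- the threshold
  refine ⟨max (max 1 ((I1 : ℝ) + 1)) ((2 : ℝ) ^ (2 * K0) + 2), lt_of_lt_of_le one_pos ((le_max_left _ _).trans (le_max_left _ _)), ?_⟩
  intro μ φ hμ hE
  have hμ1 : 1 ≤ μ := ((le_max_left _ _).trans (le_max_left _ _)).trans hμ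
  have hμ2 : (I1 : ℝ) + 1 ≤ μ := ((le_max_right _ _).trans (le_max_left _ _)).trans hμ
  have hμ3 : (2 : ℝ) ^ (2 * K0) + 2 ≤ μ := (le_max_right _ _).trans hμ
  have hfl : μ < (⌊μ⌋₊ : ℕ) + 1 := Nat.lt_floor_add_one μ
  have hi1 : I1 ≤ ⌊μ⌋₊ := Nat.le_floor (by linarith)
  have hi2 : (2 : ℝ) ^ (2 * K0) < ((⌊μ⌋₊ : ℕ) : ℝ) := by linarith
  have hi3 : (1 : ℝ) ≤ ((⌊μ⌋₊ : ℕ) : ℝ) := by
    have : (1 : ℝ) ≤ 2 ^ (2 * K0) := one_le_pow₀ (by norm_num)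
    linarith
  obtain ⟨K, v, hK1, hK2, hv1, hv, hgood⟩ := hI1 ⌊μ⌋₊ hi1
  have hsq1 : 1 ≤ Real.sqrt (⌊μ⌋₊ : ℕ) := Real.one_le_sqrt.2 hi3
  have hKK : K0 ≤ K := by
    have h3 : (2 : ℝ) ^ K0 < Real.sqrt (⌊μ⌋₊ : ℕ) := by
      rw [Real.lt_sqrt (by positivity), ← pow_mul, mul_comm K0 2]
      exact hi2
    have h4 : (2 : ℝ) ^ K0 < 2 ^ (K + 1) := lt_of_lt_of_le h3 hK2
    have h5 := (pow_lt_pow_iff_right₀ (by norm_num : (1 : ℝ) < 2)).1 h4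
    omega
  refine hgood h1 ?_ μ φ (by linarith) (BC2_floor μ hμ1) hE
  intro D' hD' hDU'
  have hm0 : 0 < Real.sqrt (⌊μ⌋₊ : ℕ) ^ (-10 : ℝ) := Real.rpow_pos_of_pos (by linarith) _
  have hm1 : Real.sqrt (⌊μ⌋₊ : ℕ) ^ (-10 : ℝ) ≤ 1 / 2 ^ K := by
    have e1 : Real.sqrt (⌊μ⌋₊ : ℕ) ^ (-10 : ℝ) ≤ Real.sqrt (⌊μ⌋₊ : ℕ) ^ (-1 : ℝ) :=
      Real.rpow_le_rpow_of_exponent_le hsq1 (by norm_num)
    refine e1.trans ?_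
    rw [Real.rpow_neg_one, one_div]
    exact inv_anti₀ (by positivity) hK1
  have hclose := hK0 K ζ (v ζ) (Real.sqrt (⌊μ⌋₊ : ℕ) ^ (-10 : ℝ)) hKK h1 hm0 hm1 (hv ζ h1)
  have hη2 : 2 * min η1 (1 / 2) ≤ 1 := by
    have := min_le_right η1 (1 / 2 : ℝ)
    linarith
  have hSζ := hS1 ζ h1
  have hG' : QU.CD ∞ (bs χ f0 K (v ζ)) := ((hS1 (v ζ) (hv1 ζ)).2 K).1
  have hG1 : ∀ n ≤ 1, CkB n (fun z => f0 z + rV χ ζ z) 1 := fun n hn => BC2_CkB hη2 (hSζ.1.2.2.1 n (by omega))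
  have hPC := hPCL' (fun z => f0 z + rV χ ζ z) (bs χ f0 K (v ζ)) (min 1 (s / Cp)) hSζ.1.1 hG'
    (le_min zero_le_one (div_pos hs hCp0).le) (min_le_left _ _) hG1 hclose
  have hCs : Cp * min 1 (s / Cp) ≤ s := by
    calc Cp * min 1 (s / Cp) ≤ Cp * (s / Cp) := mul_le_mul_of_nonneg_left (min_le_right _ _) hCp0.le
      _ = s := by field_simp
  have hU' := hUW D' (BC2_OKD hD' (BC2_Pot (hδle.trans (min_le_right _ _)) hD'.pot)) (fun g n hn => by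
    rw [hDU, hDU']
    exact (hPC g n hn).trans hCs)
  have hT : ((T0 - 1 + 1 : ℕ) : ℝ) = (T0 : ℝ) := by rw [Nat.sub_add_cancel hT0]
  show UWL D' F h (e / 8) v0 C1 ((T0 - 1 + 1 : ℕ) : ℝ) (1 / ((q : ℝ) + 1))
  rw [hT]
  exact BC2_UWL hq.le hU'

end Pool.Agent.VQ
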